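import Pool.Agent.H14R3.Aug.Stmts

set_option autoImplicit false

open scoped ENNReal InnerProductSpace

namespace Pool.Agent.H14R3.Aug

/-- expansion of a continuous linear map at a point -/
theorem trace_expand {ι κ : Type} [DecidableEq ι] (U : H ι →L[ℂ] H κ) (f : H ι) (y : κ) :
    HasSum (fun i => f i * (U (lp.single 2 i (1 : ℂ))) y) (U f y) := by
  have h1 : HasSum (fun i : ι => (lp.single 2 i (f i) : H ι)) f :=
    lp.hasSum_single (by norm_num) f
  have h2 := h1.mapL U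
  have h3 := h2.mapL (lp.evalCLM ℂ (fun _ : κ => ℂ) 2 y)
  have h4 : (fun i => f i * (U (lp.single 2 i (1 : ℂ))) y) =
      fun i => (lp.evalCLM ℂ (fun _ : κ => ℂ) 2 y) (U (lp.single 2 i (f i))) := by
    funext i
    have h5 : (lp.single 2 i (f i) : H ι) = f i • (lp.single 2 i (1 : ℂ) : H ι) := by
      rw [← lp.single_smul]
      simp
    rw [h5, map_smul, map_smul]
    rfl
  rw [h4]
  exact h3

/-- the value at a translated basis vector -/
theorem trace_equiv {Γ I J : Type} [Group Γ] [DecidableEq Γ] [DecidableEq I]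
    (T : H (I × Γ) →L[ℂ] H (J × Γ)) (hT : Equivariant T) (l : I) (g0 : Γ) (j : J) (g : Γ) :
    T (lp.single 2 (l, g0) (1 : ℂ)) (j, g) = T (lp.single 2 (l, (1 : Γ)) (1 : ℂ)) (j, g * g0⁻¹) := by
  apply hT g0⁻¹
  intro i g'
  rw [lp.single_apply, lp.single_apply, Pi.single_apply, Pi.single_apply]
  have h : ((i, g') = (l, g0)) ↔ ((i, g' * g0⁻¹) = (l, (1 : Γ))) := by
    rw [Prod.mk.injEq, Prod.mk.injEq, mul_inv_eq_one]
  simp only [h]

theorem trace_sum {Γ : Type} [Group Γ] [DecidableEq Γ] {n k : ℕ}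
    (T : H (Fin n × Γ) →L[ℂ] H (Fin k × Γ)) (U : H (Fin k × Γ) →L[ℂ] H (Fin n × Γ))
    (hU : Equivariant U) (l : Fin n) :
    HasSum (fun p : Fin k × Γ =>
      (T (lp.single 2 (l, (1 : Γ)) 1)) (p.1, p.2) *
        (U (lp.single 2 (p.1, (1 : Γ)) 1)) (l, p.2⁻¹))
      ((U (T (lp.single 2 (l, (1 : Γ)) 1))) (l, 1)) := by
  have h1 := trace_expand U (T (lp.single 2 (l, (1 : Γ)) 1)) (l, (1 : Γ))
  have h2 : (fun p : Fin k × Γ =>
      (T (lp.single 2 (l, (1 : Γ)) 1)) (p.1, p.2) *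
        (U (lp.single 2 (p.1, (1 : Γ)) 1)) (l, p.2⁻¹)) =
      fun p : Fin k × Γ => (T (lp.single 2 (l, (1 : Γ)) 1)) p *
        (U (lp.single 2 p 1)) (l, (1 : Γ)) := by
    funext p
    obtain ⟨i, g⟩ := p
    rw [trace_equiv U hU i g l 1, one_mul]
  rw [h2]
  exact h1

theorem trace_proof : Trace := by
  intro Γ _ _ n k T U hT hU
  set c : Fin n → Fin k → Γ → ℂ := fun l i g =>
    (T (lp.single 2 (l, (1 : Γ)) 1)) (i, g) * (U (lp.single 2 (i, (1 : Γ)) 1)) (l, g⁻¹) with hc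
  have hL : ∀ l : Fin n, (U (T (lp.single 2 (l, (1 : Γ)) 1))) (l, 1) = ∑ i, ∑' g, c l i g := by
    intro l
    have h1 := trace_sum T U hU l
    rw [← h1.tsum_eq, h1.summable.tsum_prod, tsum_fintype]
  have hR : ∀ i : Fin k, (T (U (lp.single 2 (i, (1 : Γ)) 1))) (i, 1) = ∑ l, ∑' g, c l i g := by
    intro i
    have h1 := trace_sum U T hT i
    rw [← h1.tsum_eq, h1.summable.tsum_prod, tsum_fintype]
    refine Finset.sum_congr rfl fun l _ => ?_
    rw [← (Equiv.inv Γ).tsum_eq (fun g => c l i g)]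
    refine tsum_congr fun g => ?_
    simp only [hc, Equiv.inv_apply, inv_inv]
    ring
  simp only [hL, hR]
  exact Finset.sum_comm

theorem Trace_proof : Trace := trace_proof

end Pool.Agent.H14R3.Aug
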